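import Mathlib
import Pool.Agent.Work.MP_73869e_nt.P5.Dy5

set_option autoImplicit false

namespace Pool.Agent.Results.MP_73869e_nt.AlmostAllFivePrimes

open Filter

/-- For every `c > 0` and every `k`, for almost all `n` the interval
`(n^2, n^2 + c (log_2 n)^2]` contains at least `k` integers with at most five prime factors
(counted with multiplicity), all of them larger than `n^(9/50)`. -/
theorem result : ∀ c : ℝ, 0 < c → ∀ ε : ℝ, 0 < ε → ∀ k : ℕ, ∃ N₀ : ℕ, ∀ N : ℕ, N₀ ≤ N →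
    ({n : ℕ | 1 ≤ n ∧ n ≤ N ∧ {m : ℕ | n ^ 2 < m ∧
      (m : ℝ) ≤ (n : ℝ) ^ 2 + c * Real.logb 2 n ^ 2 ∧
      ArithmeticFunction.cardFactors m ≤ 5 ∧
      ∀ p : ℕ, p.Prime → p ∣ m → (n : ℝ) ^ ((9 : ℝ) / 50) < p}.ncard < k}.ncard : ℝ) ≤ ε * N := by
  intro c hc ε hε k
  have hl2 : 0 < Real.log 2 := Real.log_pos (by norm_num)
  obtain ⟨N₀, hN₀⟩ := Filter.eventually_atTop.1
    (Pool.Agent.Work.MP_73869e_nt.P5.almost_all5 (c / Real.log 2 ^ 2) ε (by positivity) hε k)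
  refine ⟨N₀, fun N hN => ?_⟩
  have h1 := hN₀ N hN
  have e : ∀ n : ℕ, c / Real.log 2 ^ 2 * Real.log n ^ 2 = c * Real.logb 2 n ^ 2 := by
    intro n
    unfold Real.logb
    field_simp
  simp only [e] at h1
  exact h1

end Pool.Agent.Results.MP_73869e_nt.AlmostAllFivePrimes
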