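import Mathlib
import Pool.Agent.Work.MP_73869e_nt.AP.Dyad

set_option autoImplicit false

namespace Pool.Agent.Work.MP_73869e_nt.Retired.AlmostAllSevenPrimes

open Filter

/-- For every `c > 0`, for almost all `n` the interval `(n^2, n^2 + c (log_2 n)^2]` contains an
integer with at most seven prime factors, all of them larger than `n^δ`. -/
theorem result : ∀ c : ℝ, 0 < c → ∀ ε : ℝ, 0 < ε → ∃ δ : ℝ, 0 < δ ∧ ∃ N₀ : ℕ, ∀ N : ℕ, N₀ ≤ N →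
    ({n : ℕ | 1 ≤ n ∧ n ≤ N ∧ ¬ ∃ m : ℕ, n ^ 2 < m ∧
      (m : ℝ) ≤ (n : ℝ) ^ 2 + c * Real.logb 2 n ^ 2 ∧
      ArithmeticFunction.cardFactors m ≤ 7 ∧
      ∀ p : ℕ, p.Prime → p ∣ m → (n : ℝ) ^ δ < p}.ncard : ℝ) ≤ ε * N := by
  intro c hc ε hε
  have hl2 : 0 < Real.log 2 := Real.log_pos (by norm_num)
  obtain ⟨δ, hδ, h⟩ := Pool.Agent.Work.MP_73869e_nt.AP.almost_all (c / Real.log 2 ^ 2) ε
    (by positivity) hε
  obtain ⟨N₀, hN₀⟩ := Filter.eventually_atTop.1 h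
  refine ⟨δ, hδ, N₀, fun N hN => ?_⟩
  have h1 := hN₀ N hN
  have e : ∀ n : ℕ, c / Real.log 2 ^ 2 * Real.log n ^ 2 = c * Real.logb 2 n ^ 2 := by
    intro n
    unfold Real.logb
    field_simp
  simp only [e] at h1
  exact h1

end Pool.Agent.Work.MP_73869e_nt.Retired.AlmostAllSevenPrimes
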